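import Pool.Agent.H67.FG.Defs

/-!
# FG: the guess

For every three-valued function `r` on the formulas without gates there is a truth assignment `g` of all formulas
with gates which respects the gates and is given by `r` elsewhere.
-/

set_option autoImplicit false

namespace Pool.Agent.H6.FG

open Finset Pool.Agent.H3.Frg Pool.Agent.H3.Frg2 Pool.Agent.H67.FG

variable {V : Type}

/-- the formula with the values of the gates -/
def ttr (p : ℕ) (r : Fm (V ⊕ Bool) → Option Bool) : Fo V → Fm (V ⊕ Bool)
  | .var v => .var (Sum.inl v)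
  | .neg A => .neg (ttr p r A)
  | .imp A B => .imp (ttr p r A) (ttr p r B)
  | .mod a _ f => .var (Sum.inr (decide
      ((univ.filter fun i => (r (ttr p r (f i))).getD false = true).card % p = a % p)))

/-- the guess -/
def gss (p : ℕ) (r : Fm (V ⊕ Bool) → Option Bool) (A : Fo V) : Bool := (r (ttr p r A)).getD false

theorem gss_mod (p : ℕ) (r : Fm (V ⊕ Bool) → Option Bool) (hr : ∀ b, r (.var (.inr b)) = some b) (a n : ℕ)
    (f : Fin n → Fo V) :
    gss p r (.mod a n f) = decide ((univ.filter fun i => gss p r (f i) = true).card % p = a % p) := by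
  rw [gss, ttr, hr]
  rfl

theorem tr_gss (p : ℕ) (r : Fm (V ⊕ Bool) → Option Bool) (hr : ∀ b, r (.var (.inr b)) = some b) :
    ∀ A : Fo V, tr (gss p r) A = ttr p r A
  | .var v => by rw [tr, ttr]
  | .neg A => by rw [tr, ttr, tr_gss p r hr A]
  | .imp A B => by rw [tr, ttr, tr_gss p r hr A, tr_gss p r hr B]
  | .mod a n f => by rw [tr, ttr, gss_mod p r hr]; rfl

/-- For every three-valued function `r` of the formulas without gates there is a truth assignment of all formulas
which respects the gates and is given by `r`. -/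
theorem guess_exists (p : ℕ) (r : Fm (V ⊕ Bool) → Option Bool) (hr : ∀ b, r (.var (.inr b)) = some b) :
    ∃ g : Fo V → Bool,
      (∀ a n f, g (.mod a n f) = decide ((univ.filter fun i => g (f i) = true).card % p = a % p)) ∧
      ∀ A, g A = (r (tr g A)).getD false := by
  refine ⟨gss p r, gss_mod p r hr, fun A => ?_⟩
  rw [tr_gss p r hr A]
  rfl

theorem guess_exists_resp (p : ℕ) (r : Fm (V ⊕ Bool) → Option Bool) (hr : ∀ b, r (.var (.inr b)) = some b) :
    ∃ g : Fo V → Bool, Resp p g ∧ ∀ A, g A = (r (tr g A)).getD false := by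
  obtain ⟨g, h1, h2⟩ := guess_exists p r hr
  exact ⟨g, fun a n f => by rw [h1]; simp, h2⟩

theorem self_mem_subs (A : Fo V) : A ∈ A.subs := by
  cases A <;> simp [Fo.subs]

theorem mem_subs_mod {a n : ℕ} {f : Fin n → Fo V} {B : Fo V} :
    B ∈ (Fo.mod a n f).subs ↔ B = .mod a n f ∨ ∃ i, B ∈ (f i).subs := by
  simp [Fo.subs]

/-- The formula `tr g A` depends only on the values of `g` at the gates in `A`. -/
theorem tr_congr {g h : Fo V → Bool} : ∀ {A : Fo V}, (∀ B ∈ A.gates, g B = h B) → tr g A = tr h A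
  | .var v, _ => by rw [tr, tr]
  | .neg A, H => by
      rw [tr, tr, tr_congr (A := A) fun B hB => H B ⟨by rw [Fo.subs]; exact List.mem_cons_of_mem _ hB.1, hB.2⟩]
  | .imp A B, H => by
      rw [tr, tr, tr_congr (A := A) fun C hC => H C ⟨by
        rw [Fo.subs]; exact List.mem_cons_of_mem _ (List.mem_append_left _ hC.1), hC.2⟩,
        tr_congr (A := B) fun C hC => H C ⟨by
        rw [Fo.subs]; exact List.mem_cons_of_mem _ (List.mem_append_right _ hC.1), hC.2⟩]
  | .mod a n f, H => by
      rw [tr, tr, H _ ⟨self_mem_subs _, a, n, f, rfl⟩]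

theorem mem_subs_trans : ∀ {A B C : Fo V}, B ∈ A.subs → C ∈ B.subs → C ∈ A.subs
  | .var v, B, C, hB, hC => by
      rw [Fo.subs, List.mem_singleton] at hB
      subst hB
      exact hC
  | .neg A, B, C, hB, hC => by
      rw [Fo.subs, List.mem_cons] at hB
      rcases hB with rfl | hB
      · exact hC
      · rw [Fo.subs]
        exact List.mem_cons_of_mem _ (mem_subs_trans hB hC)
  | .imp A A', B, C, hB, hC => by
      rw [Fo.subs, List.mem_cons, List.mem_append] at hB
      rcases hB with rfl | hB | hB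
      · exact hC
      · rw [Fo.subs]
        exact List.mem_cons_of_mem _ (List.mem_append_left _ (mem_subs_trans hB hC))
      · rw [Fo.subs]
        exact List.mem_cons_of_mem _ (List.mem_append_right _ (mem_subs_trans hB hC))
  | .mod a n f, B, C, hB, hC => by
      rcases mem_subs_mod.1 hB with rfl | ⟨i, hB⟩
      · exact hC
      · exact mem_subs_mod.2 (Or.inr ⟨i, mem_subs_trans hB hC⟩)

theorem subs_trans {A B C : Fo V} (h1 : A ∈ B.subs) (h2 : B ∈ C.subs) : A ∈ C.subs := mem_subs_trans h2 h1

/-- members of gates are subformulas -/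
theorem mem_subs_of_mem_mod {A : Fo V} {a n : ℕ} {f : Fin n → Fo V} (h : Fo.mod a n f ∈ A.subs) (i : Fin n) :
    f i ∈ A.subs :=
  mem_subs_trans h (mem_subs_mod.2 (Or.inr ⟨i, self_mem_subs _⟩))

theorem gates_mono {A B : Fo V} (h : A ∈ B.subs) : A.gates ⊆ B.gates := fun _ hC => ⟨mem_subs_trans h hC.1, hC.2⟩

theorem gates_finite (A : Fo V) : A.gates.Finite :=
  (List.finite_toSet A.subs).subset fun _ h => h.1

theorem tr_congr' {g g' : Fo V → Bool} (A : Fo V) (h : ∀ B ∈ A.gates, g B = g' B) : tr g A = tr g' A := tr_congr h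

section Unique

variable (p : ℕ) (r : Fm (V ⊕ Bool) → Option Bool) {g : Fo V → Bool}

theorem uni (hg1 : ∀ a n f, g (.mod a n f) = decide ((univ.filter fun i => g (f i) = true).card % p = a % p))
    (hg2 : ∀ A, g A = (r (tr g A)).getD false)
    (G : Fo V → Bool) : ∀ B : Fo V, (∀ a n f, Fo.mod a n f ∈ B.gates →
      decide ((univ.filter fun i => (r (tr G (f i))).getD false = true).card % p = a % p) = G (.mod a n f)) →
      ∀ C ∈ B.gates, G C = g C
  | .var v, _, C, hC => by
      obtain ⟨h1, a, n, f, rfl⟩ := hC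
      rw [Fo.subs, List.mem_singleton] at h1
      exact absurd h1 (by simp)
  | .neg A, H, C, hC => by
      obtain ⟨h1, a, n, f, rfl⟩ := hC
      rw [Fo.subs, List.mem_cons] at h1
      rcases h1 with h1 | h1
      · exact absurd h1 (by simp)
      · exact uni hg1 hg2 G A (fun a n f h => H a n f ⟨by rw [Fo.subs]; exact List.mem_cons_of_mem _ h.1, h.2⟩) _
          ⟨h1, a, n, f, rfl⟩
  | .imp A B, H, C, hC => by
      obtain ⟨h1, a, n, f, rfl⟩ := hC
      rw [Fo.subs, List.mem_cons, List.mem_append] at h1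
      rcases h1 with h1 | h1 | h1
      · exact absurd h1 (by simp)
      · exact uni hg1 hg2 G A (fun a n f h => H a n f ⟨by
          rw [Fo.subs]; exact List.mem_cons_of_mem _ (List.mem_append_left _ h.1), h.2⟩) _ ⟨h1, a, n, f, rfl⟩
      · exact uni hg1 hg2 G B (fun a n f h => H a n f ⟨by
          rw [Fo.subs]; exact List.mem_cons_of_mem _ (List.mem_append_right _ h.1), h.2⟩) _ ⟨h1, a, n, f, rfl⟩
  | .mod a n f, H, C, hC => by
      have h2 : ∀ i, ∀ D ∈ (f i).gates, G D = g D := fun i =>
        uni hg1 hg2 G (f i) (fun a' n' f' h => H a' n' f' ⟨mem_subs_mod.2 (Or.inr ⟨i, h.1⟩), h.2⟩)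
      obtain ⟨h1, a', n', f', rfl⟩ := hC
      rcases mem_subs_mod.1 h1 with h1 | ⟨i, h1⟩
      · rw [h1, ← H _ _ _ ⟨self_mem_subs _, _, _, _, rfl⟩, hg1]
        have : ∀ i, (r (tr G (f i))).getD false = g (f i) := fun i => by rw [hg2 (f i), tr_congr (h2 i)]
        simp only [this]
      · exact h2 i _ ⟨h1, a', n', f', rfl⟩

/-- a guess which is consistent on the gates of `A` agrees with `g` there -/
theorem guess_unique
    (hg1 : ∀ a n f, g (.mod a n f) = decide ((univ.filter fun i => g (f i) = true).card % p = a % p))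
    (hg2 : ∀ A, g A = (r (tr g A)).getD false) (A : Fo V) (G : Fo V → Bool) :
    (∀ a n f, Fo.mod a n f ∈ A.gates →
      decide ((univ.filter fun i => (r (tr G (f i))).getD false = true).card % p = a % p) = G (.mod a n f)) ↔
    ∀ B ∈ A.gates, G B = g B := by
  refine ⟨uni p r hg1 hg2 G A, fun H a n f h => ?_⟩
  rw [H _ h, hg1]
  have : ∀ i, (r (tr G (f i))).getD false = g (f i) := fun i => by
    rw [hg2 (f i), tr_congr fun C hC => H C (gates_mono (mem_subs_of_mem_mod h.1 i) hC)]
  simp only [this]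

end Unique

end Pool.Agent.H6.FG
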