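import Pool.Agent.H6.FG.Gue
import Pool.Agent.H3.Ac.Defs

/-!
# FG: the formulas without gates that come from a proof

`tr g A` for all subformulas `A` of the lines and all guesses `g`: closed under subformulas, number, left depth.
-/

set_option autoImplicit false

namespace Pool.Agent.H6.FG

open Pool.Agent.H3.Frg Pool.Agent.H3.Frg2 Pool.Agent.H3.Ac Pool.Agent.H67.FG

variable {V : Type}

theorem neg_mem_subs {A B : Fo V} (h : Fo.neg B ∈ A.subs) : B ∈ A.subs :=
  mem_subs_trans h (by rw [Fo.subs]; exact List.mem_cons_of_mem _ (self_mem_subs B))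

theorem imp_mem_subs {A B C : Fo V} (h : Fo.imp B C ∈ A.subs) : B ∈ A.subs ∧ C ∈ A.subs :=
  ⟨mem_subs_trans h (by rw [Fo.subs]; exact List.mem_cons_of_mem _ (List.mem_append_left _ (self_mem_subs B))),
    mem_subs_trans h (by rw [Fo.subs]; exact List.mem_cons_of_mem _ (List.mem_append_right _ (self_mem_subs C)))⟩

theorem ldep_tr (g : Fo V → Bool) : ∀ A : Fo V, ldep 0 (tr g A) = A.dep
  | .var v => by rw [tr, ldep, Fo.dep]
  | .neg A => by rw [tr, ldep, Fo.dep, if_neg (by omega), ldep_tr g A]
  | .imp A B => by rw [tr, ldep, Fo.dep, if_neg (by omega), ldep_tr g A, ldep_tr g B]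
  | .mod a n f => by rw [tr, ldep, Fo.dep]

/-- a negation that is the translation of `A` -/
theorem tr_eq_neg {g : Fo V → Bool} {A : Fo V} {X : Fm (V ⊕ Bool)} (h : tr g A = .neg X) :
    ∃ B, A = .neg B ∧ tr g B = X := by
  cases A with
  | var v => simp [tr] at h
  | neg B => exact ⟨B, rfl, by simpa [tr] using h⟩
  | imp B C => simp [tr] at h
  | mod a n f => simp [tr] at h

theorem tr_eq_imp {g : Fo V → Bool} {A : Fo V} {X Y : Fm (V ⊕ Bool)} (h : tr g A = .imp X Y) :
    ∃ B C, A = .imp B C ∧ tr g B = X ∧ tr g C = Y := by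
  cases A with
  | var v => simp [tr] at h
  | neg B => simp [tr] at h
  | imp B C => exact ⟨B, C, rfl, by simpa [tr] using h⟩
  | mod a n f => simp [tr] at h

open scoped Classical in
/-- The list of all translations of the subformulas of the lines: closed under subformulas, short, of small
depth. -/
theorem exists_tr_list (π : List (Fo V)) (t d : ℕ) (hg : ∀ A ∈ π, A.gates.ncard ≤ t)
    (hd : ∀ A ∈ π, ∀ B ∈ A.subs, B.dep ≤ d) :
    ∃ S : List (Fm (V ⊕ Bool)), SubCl {A | A ∈ S} ∧ S.length ≤ size π * 2 ^ t ∧ (∀ A ∈ S, ldep 0 A ≤ d) ∧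
      (∀ X ∈ S, ∃ A ∈ π, ∃ B ∈ A.subs, ∃ g, X = tr g B) ∧
      ∀ A ∈ π, ∀ B ∈ A.subs, ∀ g, tr g B ∈ S := by
  set S : List (Fm (V ⊕ Bool)) := π.flatMap fun A =>
    (gates_finite A).toFinset.powerset.toList.flatMap fun T => A.subs.map (tr fun B => decide (B ∈ T)) with hS
  have mem : ∀ X, X ∈ S ↔ ∃ A ∈ π, ∃ B ∈ A.subs, ∃ g, X = tr g B := by
    intro X
    rw [hS]
    simp only [List.mem_flatMap, List.mem_map, Finset.mem_toList, Finset.mem_powerset]
    constructor
    · rintro ⟨A, hA, T, -, B, hB, rfl⟩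
      exact ⟨A, hA, B, hB, _, rfl⟩
    · rintro ⟨A, hA, B, hB, g, rfl⟩
      refine ⟨A, hA, (gates_finite A).toFinset.filter fun C => g C = true, Finset.filter_subset _ _, B, hB,
        tr_congr fun C hC => ?_⟩
      have : C ∈ A.gates := gates_mono hB hC
      simp [this]
  refine ⟨S, ⟨?_, ?_⟩, ?_, ?_, fun X hX => (mem X).1 hX, fun A hA B hB g => (mem _).2 ⟨A, hA, B, hB, g, rfl⟩⟩
  · intro X hX
    obtain ⟨A, hA, B, hB, g, h⟩ := (mem _).1 hX
    obtain ⟨C, rfl, h2⟩ := tr_eq_neg h.symm
    exact (mem _).2 ⟨A, hA, C, neg_mem_subs hB, g, h2.symm⟩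
  · intro X Y hX
    obtain ⟨A, hA, B, hB, g, h⟩ := (mem _).1 hX
    obtain ⟨C, D, rfl, h2, h3⟩ := tr_eq_imp h.symm
    exact ⟨(mem _).2 ⟨A, hA, C, (imp_mem_subs hB).1, g, h2.symm⟩, (mem _).2 ⟨A, hA, D, (imp_mem_subs hB).2, g, h3.symm⟩⟩
  · have key : ∀ π : List (Fo V), (∀ A ∈ π, A.gates.ncard ≤ t) → (π.flatMap fun A =>
        (gates_finite A).toFinset.powerset.toList.flatMap fun T => A.subs.map (tr fun B => decide (B ∈ T))).length ≤
        size π * 2 ^ t := by
      intro π
      induction π with
      | nil => intro _; simp [size]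
      | cons A π ih =>
          intro h
          rw [List.flatMap_cons, List.length_append]
          have h1 := ih fun B hB => h B (List.mem_cons_of_mem _ hB)
          have h2 : (((gates_finite A).toFinset.powerset.toList.flatMap fun T =>
              A.subs.map (tr fun B => decide (B ∈ T))).length) ≤ A.subs.length * 2 ^ t := by
            rw [List.length_flatMap]
            simp only [List.length_map, List.map_const', List.sum_replicate, Finset.length_toList, smul_eq_mul,
              Finset.card_powerset]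
            rw [mul_comm]
            refine Nat.mul_le_mul_left _ (Nat.pow_le_pow_right (by norm_num) ?_)
            have := h A (by simp)
            rwa [Set.ncard_eq_toFinset_card _ (gates_finite A)] at this
          have h3 : size (A :: π) = A.subs.length + size π := by simp [size]
          rw [h3, add_mul]
          omega
    exact key π hg
  · intro X hX
    obtain ⟨A, hA, B, hB, g, rfl⟩ := (mem _).1 hX
    rw [ldep_tr]
    exact hd A hA B hB

theorem tr_inst (g : Fo V → Bool) (σ : ℕ → Fo V) : ∀ ψ : Fm ℕ, tr g (inst σ ψ) = ψ.bind fun i => tr g (σ i)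
  | .var i => by rw [inst, Fm.bind]
  | .neg A => by rw [inst, Fm.bind, tr, tr_inst g σ A]
  | .imp A B => by rw [inst, Fm.bind, tr, tr_inst g σ A, tr_inst g σ B]

/-- the letters of a scheme -/
def lts : Fm ℕ → List ℕ
  | .var i => [i]
  | .neg A => lts A
  | .imp A B => lts A ++ lts B

theorem length_lts_le : ∀ ψ : Fm ℕ, (lts ψ).length ≤ ψ.len
  | .var i => by simp [lts, Fm.len]
  | .neg A => by have := length_lts_le A; simp only [lts, Fm.len]; omega
  | .imp A B => by
      have h1 := length_lts_le A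
      have h2 := length_lts_le B
      simp only [lts, Fm.len, List.length_append]
      omega

/-- subformulas of an instance: instances of the subformulas of the scheme are subformulas of the instance -/
theorem inst_mem_subs (σ : ℕ → Fo V) : ∀ {ψ χ : Fm ℕ}, χ ∈ ψ.subs → inst σ χ ∈ (inst σ ψ).subs
  | .var i, χ, h => by
      rw [Fm.subs, List.mem_singleton] at h
      subst h
      exact self_mem_subs _
  | .neg A, χ, h => by
      rw [Fm.subs, List.mem_cons] at h
      rcases h with rfl | h
      · exact self_mem_subs _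
      · rw [inst, Fo.subs]
        exact List.mem_cons_of_mem _ (inst_mem_subs σ h)
  | .imp A B, χ, h => by
      rw [Fm.subs, List.mem_cons, List.mem_append] at h
      rcases h with rfl | h | h
      · exact self_mem_subs _
      · rw [inst, Fo.subs]
        exact List.mem_cons_of_mem _ (List.mem_append_left _ (inst_mem_subs σ h))
      · rw [inst, Fo.subs]
        exact List.mem_cons_of_mem _ (List.mem_append_right _ (inst_mem_subs σ h))

theorem letter_mem_subs (σ : ℕ → Fo V) {i : ℕ} : ∀ {ψ : Fm ℕ}, i ∈ lts ψ → σ i ∈ (inst σ ψ).subs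
  | .var j, h => by
      rw [lts, List.mem_singleton] at h
      subst h
      exact self_mem_subs _
  | .neg A, h => by
      rw [inst, Fo.subs]
      exact List.mem_cons_of_mem _ (letter_mem_subs σ (ψ := A) h)
  | .imp A B, h => by
      rw [lts, List.mem_append] at h
      rw [inst, Fo.subs]
      rcases h with h | h
      · exact List.mem_cons_of_mem _ (List.mem_append_left _ (letter_mem_subs σ h))
      · exact List.mem_cons_of_mem _ (List.mem_append_right _ (letter_mem_subs σ h))

/-- the value of a scheme depends only on its letters -/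
theorem eval_congr {x y : ℕ → Bool} : ∀ {ψ : Fm ℕ}, (∀ i ∈ lts ψ, x i = y i) → ψ.eval x = ψ.eval y
  | .var i, h => h i (by simp [lts])
  | .neg A, h => by
      rw [Fm.eval, Fm.eval, eval_congr (ψ := A) h]
  | .imp A B, h => by
      rw [Fm.eval, Fm.eval, eval_congr (ψ := A) fun i hi => h i (by rw [lts]; exact List.mem_append_left _ hi),
        eval_congr (ψ := B) fun i hi => h i (by rw [lts]; exact List.mem_append_right _ hi)]

/-- The form that is used: also the constants are in the list. -/
theorem sub_list (π : List (Fo V)) (t d : ℕ)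
    (hline : ∀ A ∈ π, (∀ B ∈ A.subs, B.dep ≤ d) ∧ A.gates.ncard ≤ t) :
    ∃ S : List (Fm (V ⊕ Bool)), SubCl {A | A ∈ S} ∧ (∀ A ∈ π, ∀ B ∈ A.subs, ∀ g, tr g B ∈ S) ∧
      (∀ b, .var (Sum.inr b) ∈ S) ∧ (∀ A ∈ S, ldep 0 A ≤ d) ∧ S.length ≤ 2 ^ t * size π + 2 := by
  obtain ⟨S, h1, h2, h3, -, h5⟩ := exists_tr_list π t d (fun A hA => (hline A hA).2) fun A hA => (hline A hA).1
  refine ⟨.var (Sum.inr true) :: .var (Sum.inr false) :: S, ⟨?_, ?_⟩, ?_, ?_, ?_, ?_⟩
  · intro X hX
    simp only [Set.mem_ofPred_eq, List.mem_cons, reduceCtorEq, false_or] at hX ⊢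
    exact Or.inr (Or.inr (h1.1 X hX))
  · intro X Y hX
    simp only [Set.mem_ofPred_eq, List.mem_cons, reduceCtorEq, false_or] at hX ⊢
    exact ⟨Or.inr (Or.inr (h1.2 X Y hX).1), Or.inr (Or.inr (h1.2 X Y hX).2)⟩
  · intro A hA B hB g
    exact List.mem_cons_of_mem _ (List.mem_cons_of_mem _ (h5 A hA B hB g))
  · rintro (_ | _) <;> simp
  · intro X hX
    simp only [List.mem_cons] at hX
    rcases hX with rfl | rfl | hX
    · simp [ldep]
    · simp [ldep]
    · exact h3 X hX
  · simp only [List.length_cons]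
    rw [mul_comm]
    omega

end Pool.Agent.H6.FG
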