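import Pool.Agent.H6.FG.Sub

/-!
# FG: the list of the translated subformulas, for a bound on the gates of each formula (not of each line)

`O B` is any finite set of formulas (for example: the outermost gates of `B`) such that `tr g B` depends only on the
values of `g` on `O B`.
-/

set_option autoImplicit false

namespace Pool.Agent.H6.FG

open Pool.Agent.H3.Frg Pool.Agent.H3.Frg2 Pool.Agent.H3.Ac Pool.Agent.H67.FG

variable {V : Type}

open scoped Classical in
/-- The list of all translations of the subformulas of the lines, when `tr g B` depends only on `g` on the at most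
`t` members of `O B`. -/
theorem sub_list_of (O : Fo V → Set (Fo V)) (hfin : ∀ B, (O B).Finite)
    (hO : ∀ (B : Fo V) (g h : Fo V → Bool), (∀ C ∈ O B, g C = h C) → tr g B = tr h B) (π : List (Fo V)) (t d : ℕ)
    (hline : ∀ A ∈ π, ∀ B ∈ A.subs, B.dep ≤ d ∧ (O B).ncard ≤ t) :
    ∃ S : List (Fm (V ⊕ Bool)), SubCl {A | A ∈ S} ∧ (∀ A ∈ π, ∀ B ∈ A.subs, ∀ g, tr g B ∈ S) ∧
      (∀ b, .var (Sum.inr b) ∈ S) ∧ (∀ A ∈ S, ldep 0 A ≤ d) ∧ S.length ≤ 2 ^ t * size π + 2 := by
  set L : List (Fo V) := π.flatMap Fo.subs with hL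
  have memL : ∀ B, B ∈ L ↔ ∃ A ∈ π, B ∈ A.subs := fun B => by rw [hL, List.mem_flatMap]
  have lenL : L.length = size π := by rw [hL, List.length_flatMap, size]
  set S : List (Fm (V ⊕ Bool)) := L.flatMap fun B =>
    (hfin B).toFinset.powerset.toList.map fun T => tr (fun C => decide (C ∈ T)) B with hS
  have mem : ∀ X, X ∈ S ↔ ∃ A ∈ π, ∃ B ∈ A.subs, ∃ g, X = tr g B := by
    intro X
    rw [hS]
    simp only [List.mem_flatMap, List.mem_map, Finset.mem_toList, Finset.mem_powerset, memL]
    constructor
    · rintro ⟨B, ⟨A, hA, hB⟩, T, -, rfl⟩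
      exact ⟨A, hA, B, hB, _, rfl⟩
    · rintro ⟨A, hA, B, hB, g, rfl⟩
      refine ⟨B, ⟨A, hA, hB⟩, (hfin B).toFinset.filter fun C => g C = true, Finset.filter_subset _ _,
        hO B _ _ fun C hC => ?_⟩
      simp [hC]
  have len : S.length ≤ size π * 2 ^ t := by
    have key : ∀ M : List (Fo V), (∀ B ∈ M, (O B).ncard ≤ t) → (M.flatMap fun B =>
        (hfin B).toFinset.powerset.toList.map fun T => tr (fun C => decide (C ∈ T)) B).length ≤ M.length * 2 ^ t := by
      intro M
      induction M with
      | nil => intro _; simp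
      | cons B M ih =>
          intro h
          rw [List.flatMap_cons, List.length_append, List.length_map, Finset.length_toList, Finset.card_powerset,
            List.length_cons, add_mul, one_mul]
          have h1 := ih fun C hC => h C (List.mem_cons_of_mem _ hC)
          have h2 : 2 ^ (hfin B).toFinset.card ≤ 2 ^ t := by
            refine Nat.pow_le_pow_right (by norm_num) ?_
            have := h B (by simp)
            rwa [Set.ncard_eq_toFinset_card _ (hfin B)] at this
          omega
    rw [← lenL]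
    exact key L fun B hB => by
      obtain ⟨A, hA, hB⟩ := (memL B).1 hB
      exact (hline A hA B hB).2
  refine ⟨.var (Sum.inr true) :: .var (Sum.inr false) :: S, ⟨?_, ?_⟩, ?_, ?_, ?_, ?_⟩
  · intro X hX
    simp only [Set.mem_ofPred_eq, List.mem_cons, reduceCtorEq, false_or] at hX ⊢
    obtain ⟨A, hA, B, hB, g, h⟩ := (mem _).1 hX
    obtain ⟨C, rfl, h2⟩ := tr_eq_neg h.symm
    exact Or.inr (Or.inr ((mem _).2 ⟨A, hA, C, neg_mem_subs hB, g, h2.symm⟩))
  · intro X Y hX
    simp only [Set.mem_ofPred_eq, List.mem_cons, reduceCtorEq, false_or] at hX ⊢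
    obtain ⟨A, hA, B, hB, g, h⟩ := (mem _).1 hX
    obtain ⟨C, D, rfl, h2, h3⟩ := tr_eq_imp h.symm
    exact ⟨Or.inr (Or.inr ((mem _).2 ⟨A, hA, C, (imp_mem_subs hB).1, g, h2.symm⟩)),
      Or.inr (Or.inr ((mem _).2 ⟨A, hA, D, (imp_mem_subs hB).2, g, h3.symm⟩))⟩
  · intro A hA B hB g
    exact List.mem_cons_of_mem _ (List.mem_cons_of_mem _ ((mem _).2 ⟨A, hA, B, hB, g, rfl⟩))
  · rintro (_ | _) <;> simp
  · intro X hX
    simp only [List.mem_cons] at hX
    rcases hX with rfl | rfl | hX
    · simp [ldep]
    · simp [ldep]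
    · obtain ⟨A, hA, B, hB, g, rfl⟩ := (mem _).1 hX
      rw [ldep_tr]
      exact (hline A hA B hB).1
  · simp only [List.length_cons]
    rw [mul_comm]
    omega

/-- the outermost gates -/
def outL : Fo V → List (Fo V)
  | .var _ => []
  | .neg A => outL A
  | .imp A B => outL A ++ outL B
  | .mod a n f => [.mod a n f]

theorem tr_congr_outL {g h : Fo V → Bool} : ∀ {A : Fo V}, (∀ B ∈ outL A, g B = h B) → tr g A = tr h A
  | .var v, _ => by rw [tr, tr]
  | .neg A, H => by rw [tr, tr, tr_congr_outL (A := A) H]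
  | .imp A B, H => by
      rw [outL] at H
      rw [tr, tr, tr_congr_outL (A := A) fun C hC => H C (List.mem_append_left _ hC),
        tr_congr_outL (A := B) fun C hC => H C (List.mem_append_right _ hC)]
  | .mod a n f, H => by rw [tr, tr, H _ (by simp [outL])]

theorem outL_subset_gates : ∀ {A : Fo V} {B : Fo V}, B ∈ outL A → B ∈ A.gates
  | .var v, B, h => by simp [outL] at h
  | .neg A, B, h => by
      have := outL_subset_gates (A := A) h
      exact ⟨by rw [Fo.subs]; exact List.mem_cons_of_mem _ this.1, this.2⟩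
  | .imp A A', B, h => by
      rw [outL, List.mem_append] at h
      rcases h with h | h
      · have := outL_subset_gates (A := A) h
        exact ⟨by rw [Fo.subs]; exact List.mem_cons_of_mem _ (List.mem_append_left _ this.1), this.2⟩
      · have := outL_subset_gates (A := A') h
        exact ⟨by rw [Fo.subs]; exact List.mem_cons_of_mem _ (List.mem_append_right _ this.1), this.2⟩
  | .mod a n f, B, h => by
      rw [outL, List.mem_singleton] at h
      subst h
      exact ⟨self_mem_subs _, a, n, f, rfl⟩

end Pool.Agent.H6.FG
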