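import Pool.Agent.H67.FG.Out
import Pool.Agent.H6.FG.SubO

/-!
# FG: the list of the translated subformulas, with a bound on the outermost gates of each formula
-/

set_option autoImplicit false

namespace Pool.Agent.H6.FG

open Pool.Agent.H3.Frg Pool.Agent.H3.Frg2 Pool.Agent.H3.Ac Pool.Agent.H67.FG

variable {V : Type}

theorem outer_eq : ∀ A : Fo V, A.outer = {B | B ∈ outL A}
  | .var v => by rw [Fo.outer]; ext B; simp [outL]
  | .neg A => by rw [Fo.outer, outer_eq A]; rfl
  | .imp A B => by rw [Fo.outer, outer_eq A, outer_eq B]; ext C; simp [outL]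
  | .mod a n f => by rw [Fo.outer]; ext B; simp [outL]

theorem outer_finite (A : Fo V) : A.outer.Finite := by
  rw [outer_eq]
  exact List.finite_toSet _

theorem tr_congr_outer (A : Fo V) (g h : Fo V → Bool) (H : ∀ B ∈ A.outer, g B = h B) : tr g A = tr h A :=
  tr_congr_outL fun B hB => H B (by rw [outer_eq]; exact hB)

theorem outer_subset_gates (A : Fo V) : A.outer ⊆ A.gates := fun B hB => by
  rw [outer_eq] at hB
  exact outL_subset_gates hB

/-- SUB for the final form -/
theorem sub_list2 (π : List (Fo V)) (t d : ℕ)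
    (hline : ∀ A ∈ π, ∀ B ∈ A.subs, B.dep ≤ d ∧ B.outer.ncard ≤ t) :
    ∃ S : List (Fm (V ⊕ Bool)), SubCl {A | A ∈ S} ∧ (∀ A ∈ π, ∀ B ∈ A.subs, ∀ g, tr g B ∈ S) ∧
      (∀ b, .var (Sum.inr b) ∈ S) ∧ (∀ A ∈ S, ldep 0 A ≤ d) ∧ S.length ≤ 2 ^ t * size π + 2 :=
  sub_list_of Fo.outer outer_finite tr_congr_outer π t d hline

end Pool.Agent.H6.FG
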